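import Pool.Agent.Q32.LR2.Stm

/-!
# Project LR2: the countable step

`S_CTB` of `Pool.Agent.Q32.LR2.Stm`.
-/

set_option autoImplicit false

namespace Q38.LR2

open Q32.LR2

section

variable {G Q M Y : Type} [Group G] [Group Q] [Group M]

theorem LL_mono (sub : S_SUB) (F H : Subgroup G) [F.Normal] (e : F ≃* FreeGroup Y) {W W' : Set Y}
    (h : W ⊆ W') : LL F H e W ≤ LL F H e W' := by
  obtain ⟨-, -, -, h4, -⟩ := sub G Y F H e
  exact sup_le_sup_left (h4 W W' h).1 H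

/-- the union of a directed family of partial extensions -/
theorem union_ok (sub : S_SUB) (dir : S_DIR) (F H : Subgroup G) [F.Normal] [F.FiniteIndex]
    (e : F ≃* FreeGroup Y) (π : G →* Q) (s : Q →* M) {I : Type} [Nonempty I] (W : I → Set Y)
    (φ : I → G → M) (hFH : ∀ i, F ⊓ H ≤ BB F e (W i)) (hok : ∀ i, Ok F H e π s (W i) (φ i))
    (hd : ∀ i j, ∃ k, (W i ⊆ W k ∧ W j ⊆ W k) ∧ (∀ g ∈ LL F H e (W i), φ k g = φ i g) ∧
      ∀ g ∈ LL F H e (W j), φ k g = φ j g) :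
    ∃ f' : G → M, Ok F H e π s (⋃ i, W i) f' ∧ ∀ i, ∀ g ∈ LL F H e (W i), f' g = φ i g := by
  classical
  obtain ⟨-, hL⟩ := dir sub G Y I F H e W (fun i j => (hd i j).imp fun k hk => hk.1) hFH
  have hdir : Directed (· ≤ ·) (fun i => LL F H e (W i)) := by
    intro i j
    obtain ⟨k, ⟨h1, h2⟩, -⟩ := hd i j
    exact ⟨k, LL_mono sub F H e h1, LL_mono sub F H e h2⟩
  let f' : G → M := fun g => if h : ∃ i, g ∈ LL F H e (W i) then φ h.choose g else 1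
  have hf' : ∀ i, ∀ g ∈ LL F H e (W i), f' g = φ i g := by
    intro i g hg
    have h : ∃ i, g ∈ LL F H e (W i) := ⟨i, hg⟩
    have e1 : f' g = φ h.choose g := dif_pos h
    obtain ⟨k, -, h3, h4⟩ := hd i h.choose
    rw [e1, ← h4 g h.choose_spec, h3 g hg]
  refine ⟨f', ⟨?_, ?_⟩, hf'⟩
  · intro a ha b hb
    obtain ⟨i, hi⟩ := (hL a).1 ha
    obtain ⟨j, hj⟩ := (hL b).1 hb
    obtain ⟨k, hik, hjk⟩ := hdir i j
    have h1 := hik hi
    have h2 := hjk hj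
    rw [hf' k _ (Subgroup.mul_mem _ h1 h2), hf' k _ h1, hf' k _ h2]
    exact (hok k).1 a h1 b h2
  · intro E hE hEL
    have h1 : ∀ g : E, ∃ i, (g : G) ∈ LL F H e (W i) := fun g => (hL g).1 (hEL g.2)
    choose c hc using h1
    haveI := hE
    obtain ⟨k, hk⟩ := hdir.finite_le c
    have h2 : E ≤ LL F H e (W k) := fun g hg => hk ⟨g, hg⟩ (hc ⟨g, hg⟩)
    obtain ⟨n, hn⟩ := (hok k).2 E hE h2
    refine ⟨n, fun g hg => ?_⟩
    rw [hf' k g (h2 hg)]
    exact hn g hg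

end

/-- **CTB** -/
theorem ctb : S_CTB := by
  intro sub dir clo G Q M Y _ _ _ _ _ F H _ _ e π s hH step Z S hZ hS hFH f hf
  obtain ⟨S', h0, hfin, hmono, hclo⟩ := clo sub G Y F H e hH Z S hZ hS
  have hsub : ∀ n, Z ∪ S ⊆ Z ∪ S' n := fun n => by
    rw [← h0]
    exact Set.union_subset_union_right _ (hmono (Nat.zero_le n))
  have hBB : ∀ n, F ⊓ H ≤ BB F e (Z ∪ S' n) := by
    intro n
    obtain ⟨-, -, -, h4, -⟩ := sub G Y F H e
    exact hFH.trans (h4 _ _ (hsub n)).2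
  have st : ∀ (n : ℕ) (g : {g : G → M // Ok F H e π s (Z ∪ S' n) g}),
      ∃ g' : {g : G → M // Ok F H e π s (Z ∪ S' (n + 1)) g},
        ∀ x ∈ LL F H e (Z ∪ S' n), g'.1 x = g.1 x := by
    intro n g
    obtain ⟨g', h1, h2⟩ := step Z (S' n) (S' (n + 1)) hZ (hfin (n + 1)) (hmono (Nat.le_succ n))
      (hBB n) g.1 g.2
    exact ⟨⟨g', h1⟩, h2⟩
  choose nx hnx using st
  have hf0 : Ok F H e π s (Z ∪ S' 0) f := by
    rw [h0]
    exact hf
  let Φ : ∀ n, {g : G → M // Ok F H e π s (Z ∪ S' n) g} := fun n =>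
    Nat.rec ⟨f, hf0⟩ (fun n g => nx n g) n
  have hΦ : ∀ n, ∀ x ∈ LL F H e (Z ∪ S' n), (Φ (n + 1)).1 x = (Φ n).1 x := fun n x hx =>
    hnx n (Φ n) x hx
  have hm : ∀ n m : ℕ, n ≤ m → Z ∪ S' n ⊆ Z ∪ S' m := fun n m h =>
    Set.union_subset_union_right _ (hmono h)
  have hag : ∀ n m : ℕ, n ≤ m → ∀ x ∈ LL F H e (Z ∪ S' n), (Φ m).1 x = (Φ n).1 x := by
    intro n m h
    induction m, h using Nat.le_induction with
    | base => intro x _; rfl
    | succ m h ih =>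
      intro x hx
      rw [hΦ m x (LL_mono sub F H e (hm n m h) hx), ih x hx]
  obtain ⟨f', h1, h2⟩ := union_ok sub dir F H e π s (fun n => Z ∪ S' n) (fun n => (Φ n).1) hBB
    (fun n => (Φ n).2) (fun i j => ⟨max i j, ⟨hm _ _ (le_max_left i j), hm _ _ (le_max_right i j)⟩,
      hag _ _ (le_max_left i j), hag _ _ (le_max_right i j)⟩)
  have eU : (⋃ n, (Z ∪ S' n)) = Z ∪ ⋃ n, S' n := by
    rw [← Set.union_iUnion]
  rw [eU] at h1
  refine ⟨Z ∪ ⋃ n, S' n, f', ?_, hclo, h1, ?_⟩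
  · apply Set.union_subset_union_right
    rw [← h0]
    exact Set.subset_iUnion S' 0
  · intro g hg
    have h3 : g ∈ LL F H e (Z ∪ S' 0) := by
      rw [h0]
      exact hg
    exact h2 0 g h3

end Q38.LR2
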