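import Pool.Agent.Q32.LR2.Stm

/-!
# Project LR2: finitely generated subgroups of the target are virtual retracts

`S_LRT` of `Pool.Agent.Q32.LR2.Stm`.
-/

set_option autoImplicit false

namespace Q38.LR2

open Q32.LR2 Pool.Agent.H97R3.VR

section

variable {Y : Type}

theorem permAut_of (σ : Equiv.Perm Y) (y : Y) :
    (permAut Y σ) (FreeGroup.of y) = FreeGroup.of (σ y) := by
  show FreeGroup.freeGroupCongr σ (FreeGroup.of y) = _
  simp

open Classical in
/-- the homomorphism killing the letters outside of `p` -/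
noncomputable def kap (p : Y → Prop) : FreeGroup Y →* FreeGroup {y // p y} :=
  FreeGroup.lift fun y => if h : p y then FreeGroup.of ⟨y, h⟩ else 1

theorem kap_pos {p : Y → Prop} {y : Y} (h : p y) :
    kap p (FreeGroup.of y) = FreeGroup.of ⟨y, h⟩ := by
  unfold kap
  rw [FreeGroup.lift_apply_of, dif_pos h]

theorem kap_neg {p : Y → Prop} {y : Y} (h : ¬ p y) : kap p (FreeGroup.of y) = 1 := by
  unfold kap
  rw [FreeGroup.lift_apply_of, dif_neg h]

/-- the inclusion -/
def io (p : Y → Prop) : FreeGroup {y // p y} →* FreeGroup Y := FreeGroup.map Subtype.val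

theorem io_kap (p : Y → Prop) {u : FreeGroup Y} (hu : u ∈ FW {y | p y}) : io p (kap p u) = u := by
  have h : Set.EqOn ((io p).comp (kap p)) (MonoidHom.id _) (FreeGroup.of '' {y | p y}) := by
    rintro _ ⟨y, hy, rfl⟩
    show io p (kap p (FreeGroup.of y)) = FreeGroup.of y
    rw [kap_pos (show p y from hy)]
    unfold io
    rw [FreeGroup.map.of]
  exact MonoidHom.eqOn_closure h hu

theorem mem_FW_letters [DecidableEq Y] (u : FreeGroup Y) (W : Set Y)
    (h : ∀ l ∈ u.toWord, l.1 ∈ W) : u ∈ FW W := by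
  have key : ∀ L : List (Y × Bool), (∀ l ∈ L, l.1 ∈ W) → FreeGroup.mk L ∈ FW W := by
    intro L
    induction L with
    | nil =>
      intro _
      exact Subgroup.one_mem _
    | cons l L ih =>
      intro hL
      have e : FreeGroup.mk (l :: L) = FreeGroup.mk [l] * FreeGroup.mk L := by
        rw [FreeGroup.mul_mk]
        rfl
      rw [e]
      refine Subgroup.mul_mem _ ?_ (ih fun l' hl' => hL l' (List.mem_cons_of_mem _ hl'))
      have h1 : FreeGroup.of l.1 ∈ FW W :=
        Subgroup.subset_closure ⟨l.1, hL l List.mem_cons_self, rfl⟩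
      obtain ⟨y, c⟩ := l
      cases c
      · exact Subgroup.inv_mem _ h1
      · exact h1
  rw [← FreeGroup.mk_toWord (x := u)]
  exact key _ h

theorem FW_inv (W : Set Y) (σ : Equiv.Perm Y) (h : ∀ y ∈ W, σ y ∈ W) {u : FreeGroup Y}
    (hu : u ∈ FW W) : permAut Y σ u ∈ FW W := by
  have h1 : FW W ≤ (FW W).comap (permAut Y σ : FreeGroup Y →* FreeGroup Y) := by
    unfold FW
    rw [Subgroup.closure_le]
    rintro _ ⟨y, hy, rfl⟩
    show permAut Y σ (FreeGroup.of y) ∈ Subgroup.closure (FreeGroup.of '' W)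
    rw [permAut_of]
    exact Subgroup.subset_closure ⟨σ y, h y hy, rfl⟩
  exact h1 hu

end

/-- the target groups with finitely many letters -/
theorem fin_case {Q Y : Type} [Group Q] [Finite Q] [Finite Y] (θ : Q →* Equiv.Perm Y)
    (H : Subgroup (FreeGroup Y ⋊[(permAut Y).comp θ] Q)) (hH : H.FG) : IsVirtualRetract H := by
  let T := FreeGroup Y ⋊[(permAut Y).comp θ] Q
  have hfg : Group.FG T := by
    rw [Group.fg_iff]
    refine ⟨Set.range (fun y : Y => (SemidirectProduct.inl (FreeGroup.of y) : T)) ∪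
      Set.range (fun q : Q => (SemidirectProduct.inr q : T)), ?_,
      (Set.finite_range _).union (Set.finite_range _)⟩
    rw [eq_top_iff]
    intro x _
    rw [← SemidirectProduct.inl_left_mul_inr_right x]
    refine Subgroup.mul_mem _ ?_ (Subgroup.subset_closure (Or.inr ⟨x.right, rfl⟩))
    have h1 : (⊤ : Subgroup (FreeGroup Y)) ≤ (Subgroup.closure
        (Set.range (fun y : Y => (SemidirectProduct.inl (FreeGroup.of y) : T)) ∪
        Set.range (fun q : Q => (SemidirectProduct.inr q : T)))).comap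
        (SemidirectProduct.inl : FreeGroup Y →* T) := by
      rw [← FreeGroup.closure_range_of, Subgroup.closure_le]
      rintro _ ⟨y, rfl⟩
      exact Subgroup.subset_closure (Or.inl ⟨y, rfl⟩)
    exact h1 (Subgroup.mem_top x.left)
  have hfi : ((SemidirectProduct.inl : FreeGroup Y →* T).range).FiniteIndex := by
    rw [SemidirectProduct.range_inl_eq_ker_rightHom]
    infer_instance
  have hfree : IsFreeGroup ((SemidirectProduct.inl : FreeGroup Y →* T).range) :=
    IsFreeGroup.ofMulEquiv (MonoidHom.ofInjective (f := (SemidirectProduct.inl : FreeGroup Y →* T))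
      SemidirectProduct.inl_injective)
  exact Q27.LR.main T _ hfree H hH

/-- **LRT** -/
theorem lrt (pb : S_PB) : S_LRT := by
  classical
  intro Q Y _ _ θ H hH
  obtain ⟨S, hS⟩ := hH
  -- the letters
  let L : Set Y := {y | ∃ x ∈ S, ∃ l ∈ x.left.toWord, ∃ q : Q, y = θ q l.1}
  have hLfin : L.Finite := by
    have h1 : L ⊆ ⋃ x ∈ (S : Set (FreeGroup Y ⋊[(permAut Y).comp θ] Q)),
        ⋃ l ∈ {l : Y × Bool | l ∈ x.left.toWord}, Set.range fun q : Q => θ q l.1 := by
      rintro y ⟨x, hx, l, hl, q, rfl⟩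
      simp only [Set.mem_iUnion]
      exact ⟨x, hx, l, hl, q, rfl⟩
    refine Set.Finite.subset ?_ h1
    refine Set.Finite.biUnion S.finite_toSet fun x _ => ?_
    refine Set.Finite.biUnion (List.finite_toSet _) fun l _ => Set.finite_range _
  have hLinv : ∀ q : Q, ∀ y ∈ L, θ q y ∈ L := by
    rintro q y ⟨x, hx, l, hl, q', rfl⟩
    refine ⟨x, hx, l, hl, q * q', ?_⟩
    rw [map_mul]
    rfl
  have hLiff : ∀ q : Q, ∀ y, θ q y ∈ L ↔ y ∈ L := by
    intro q y
    refine ⟨fun h => ?_, hLinv q y⟩
    have h1 := hLinv q⁻¹ _ h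
    have h2 : θ q⁻¹ (θ q y) = y := by
      rw [map_inv]
      exact (θ q).symm_apply_apply y
    rw [h2] at h1
    exact h1
  have : Finite {y // y ∈ L} := hLfin
  let θ0 : Q →* Equiv.Perm {y // y ∈ L} :=
    { toFun := fun q => (θ q).subtypePerm (fun y => (hLiff q y))
      map_one' := by
        ext y
        simp
      map_mul' := by
        intro q q'
        ext y
        show θ (q * q') y.1 = θ q (θ q' y.1)
        rw [map_mul]
        rfl }
  have heq : ∀ q : Q, (kap (fun y => y ∈ L)).comp
      (((permAut Y).comp θ q : MulAut (FreeGroup Y)) : FreeGroup Y →* FreeGroup Y) =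
      (((permAut {y // y ∈ L}).comp θ0 q : MulAut (FreeGroup {y // y ∈ L})) :
        FreeGroup {y // y ∈ L} →* FreeGroup {y // y ∈ L}).comp (kap (fun y => y ∈ L)) := by
    intro q
    ext y
    show kap (fun y => y ∈ L) (permAut Y (θ q) (FreeGroup.of y)) =
      permAut {y // y ∈ L} (θ0 q) (kap (fun y => y ∈ L) (FreeGroup.of y))
    rw [permAut_of]
    by_cases hy : y ∈ L
    · rw [kap_pos (p := fun y => y ∈ L) (hLinv q y hy), kap_pos (p := fun y => y ∈ L) hy, permAut_of]
      rfl
    · rw [kap_neg (p := fun y => y ∈ L) (fun h => hy ((hLiff q y).1 h)),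
        kap_neg (p := fun y => y ∈ L) hy, map_one]
  let κ : (FreeGroup Y ⋊[(permAut Y).comp θ] Q) →*
      (FreeGroup {y // y ∈ L} ⋊[(permAut {y // y ∈ L}).comp θ0] Q) :=
    SemidirectProduct.map (kap (fun y => y ∈ L)) (MonoidHom.id Q) heq
  let K : Subgroup (FreeGroup Y ⋊[(permAut Y).comp θ] Q) :=
    { carrier := {x | x.left ∈ FW L}
      one_mem' := Subgroup.one_mem (FW L)
      mul_mem' := by
        intro a b ha hb
        show (a * b).left ∈ FW L
        rw [SemidirectProduct.mul_left]
        exact Subgroup.mul_mem _ ha (FW_inv L (θ a.right) (hLinv a.right) hb)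
      inv_mem' := by
        intro a ha
        show (a⁻¹).left ∈ FW L
        rw [SemidirectProduct.inv_left]
        exact FW_inv L (θ a.right⁻¹) (hLinv a.right⁻¹) (Subgroup.inv_mem _ ha) }
  have hHK : H ≤ K := by
    rw [← hS, Subgroup.closure_le]
    intro x hx
    show x.left ∈ FW L
    refine mem_FW_letters _ _ fun l hl => ⟨x, hx, l, hl, 1, ?_⟩
    rw [map_one]
    rfl
  have hinj : ∀ h ∈ H, κ h = 1 → h = 1 := by
    intro h hh h1
    have h2 : h.left ∈ FW L := hHK hh
    have h3 : kap (fun y => y ∈ L) h.left = 1 := congrArg SemidirectProduct.left h1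
    have h4 : h.right = 1 := congrArg SemidirectProduct.right h1
    have h5 := io_kap (fun y => y ∈ L) (u := h.left) h2
    rw [h3, map_one] at h5
    exact SemidirectProduct.ext h5.symm h4
  refine pb _ _ κ H hinj (fin_case θ0 _ ?_)
  exact ⟨S.image κ, by rw [Finset.coe_image, ← MonoidHom.map_closure, hS]⟩

end Q38.LR2
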