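import Pool.Agent.Q38.LR2.CTB

/-!
# Project LR2: Zorn's lemma

`S_ZORN` of `Pool.Agent.Q32.LR2.Stm`.
-/

set_option autoImplicit false

namespace Q38.LR2

open Q32.LR2

theorem FW_union {Y I : Type} [Nonempty I] (W : I → Set Y)
    (hd : ∀ i j, ∃ k, W i ⊆ W k ∧ W j ⊆ W k) (g : FreeGroup Y) :
    g ∈ FW (⋃ i, W i) ↔ ∃ i, g ∈ FW (W i) := by
  unfold FW
  rw [Set.image_iUnion, Subgroup.closure_iUnion, Subgroup.mem_iSup_of_directed]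
  intro i j
  obtain ⟨k, h1, h2⟩ := hd i j
  exact ⟨k, Subgroup.closure_mono (Set.image_mono h1), Subgroup.closure_mono (Set.image_mono h2)⟩

theorem BB_union (sub : S_SUB) {G Y I : Type} [Group G] (F H : Subgroup G) [F.Normal]
    (e : F ≃* FreeGroup Y) [Nonempty I] (W : I → Set Y)
    (hd : ∀ i j, ∃ k, W i ⊆ W k ∧ W j ⊆ W k) (g : G) :
    g ∈ BB F e (⋃ i, W i) ↔ ∃ i, g ∈ BB F e (W i) := by
  obtain ⟨h1, h2, -⟩ := sub G Y F H e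
  constructor
  · intro hg
    have h3 := (h1 _ ⟨g, h2 _ hg⟩).1 hg
    obtain ⟨i, hi⟩ := (FW_union W hd _).1 h3
    exact ⟨i, (h1 _ ⟨g, h2 _ hg⟩).2 hi⟩
  · rintro ⟨i, hi⟩
    have h3 := (h1 _ ⟨g, h2 _ hi⟩).1 hi
    exact (h1 _ ⟨g, h2 _ hi⟩).2 ((FW_union W hd _).2 ⟨i, h3⟩)

/-- **ZORN** -/
theorem zorn : S_ZORN := by
  intro sub dir G Q M Y _ _ _ _ F H _ _ e π s step Z1 f hZ1 hFH hf
  obtain ⟨h1, h2, -, h4, -⟩ := sub G Y F H e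
  let X : Type := {p : Set Y × (G → M) // Z1 ⊆ p.1 ∧ Clo F H e p.1 ∧ Ok F H e π s p.1 p.2 ∧
    ∀ g ∈ LL F H e Z1, p.2 g = f g}
  let r : X → X → Prop := fun p p' => p.1.1 ⊆ p'.1.1 ∧ ∀ g ∈ LL F H e p.1.1, p'.1.2 g = p.1.2 g
  have htr : ∀ {a b c : X}, r a b → r b c → r a c := by
    intro a b c hab hbc
    refine ⟨hab.1.trans hbc.1, fun g hg => ?_⟩
    rw [hbc.2 g (LL_mono sub F H e hab.1 hg), hab.2 g hg]
  have hrefl : ∀ a : X, r a a := fun a => ⟨subset_rfl, fun _ _ => rfl⟩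
  obtain ⟨m, hm⟩ := exists_maximal_of_chains_bounded (r := r) (by
    intro c hc
    rcases c.eq_empty_or_nonempty with rfl | hne
    · exact ⟨⟨(Z1, f), subset_rfl, hZ1, hf, fun _ _ => rfl⟩, fun a ha => absurd ha (Set.notMem_empty a)⟩
    haveI : Nonempty c := hne.to_subtype
    have hd : ∀ i j : c, ∃ k : c, ((i.1.1.1 ⊆ k.1.1.1) ∧ (j.1.1.1 ⊆ k.1.1.1)) ∧
        (∀ g ∈ LL F H e i.1.1.1, k.1.1.2 g = i.1.1.2 g) ∧
        ∀ g ∈ LL F H e j.1.1.1, k.1.1.2 g = j.1.1.2 g := by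
      intro i j
      by_cases hij : i = j
      · subst hij
        exact ⟨i, ⟨subset_rfl, subset_rfl⟩, fun _ _ => rfl, fun _ _ => rfl⟩
      · rcases hc i.2 j.2 (fun h => hij (Subtype.ext h)) with h | h
        · exact ⟨j, ⟨h.1, subset_rfl⟩, h.2, fun _ _ => rfl⟩
        · exact ⟨i, ⟨subset_rfl, h.1⟩, fun _ _ => rfl, h.2⟩
    obtain ⟨f', g1, g2⟩ := union_ok sub dir F H e π s (I := c) (fun i => i.1.1.1)
      (fun i => i.1.1.2) (fun i => hFH.trans (h4 _ _ i.1.2.1).2) (fun i => i.1.2.2.2.1) hd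
    obtain ⟨i0⟩ := (inferInstance : Nonempty c)
    have hdir : ∀ i j : c, ∃ k : c, i.1.1.1 ⊆ k.1.1.1 ∧ j.1.1.1 ⊆ k.1.1.1 := fun i j =>
      (hd i j).imp fun k hk => hk.1
    refine ⟨⟨(⋃ i : c, i.1.1.1, f'), ?_, ?_, g1, ?_⟩, ?_⟩
    · exact i0.1.2.1.trans (Set.subset_iUnion (fun i : c => i.1.1.1) i0)
    · intro h hh g hg
      obtain ⟨i, hi⟩ := (BB_union sub F H e (fun i : c => i.1.1.1) hdir g).1 hg
      exact (BB_union sub F H e (fun i : c => i.1.1.1) hdir _).2 ⟨i, i.1.2.2.1 h hh g hi⟩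
    · intro g hg
      have g3 := g2 i0 g (LL_mono sub F H e i0.1.2.1 hg)
      rw [show ((⋃ i : c, i.1.1.1, f') : Set Y × (G → M)).2 g = f' g from rfl, g3]
      exact i0.1.2.2.2.2 g hg
    · intro a ha
      exact ⟨Set.subset_iUnion (fun i : c => i.1.1.1) ⟨a, ha⟩, g2 ⟨a, ha⟩⟩) htr
  have hall : m.1.1 = Set.univ := by
    rw [Set.eq_univ_iff_forall]
    intro y
    obtain ⟨Z', f', g1, g2, g3, g4, g5⟩ := step m.1.1 y m.2.2.1 (hFH.trans (h4 _ _ m.2.1).2) m.1.2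
      m.2.2.2.1
    have g6 : ∀ g ∈ LL F H e Z1, f' g = f g := by
      intro g hg
      rw [g5 g (LL_mono sub F H e m.2.1 hg)]
      exact m.2.2.2.2 g hg
    have g7 := hm ⟨(Z', f'), m.2.1.trans g1, g3, g4, g6⟩ ⟨g1, g5⟩
    exact g7.1 g2
  refine ⟨m.1.2, ?_, m.2.2.2.2⟩
  have g8 := m.2.2.2.1
  rw [hall] at g8
  exact g8

end Q38.LR2
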