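import Pool.Agent.Q32.LR2.Stm

/-!
# Project LR2: the axis

`S_AX` of `Pool.Agent.Q32.LR2.Stm`.
-/

set_option autoImplicit false

namespace Q38.LR2

open Q32.LR2 FreeGroup

theorem head_neg {Y : Type} [DecidableEq Y] (v : FreeGroup Y) (y : Y) :
    v.toWord.head? = some (y, false) ↔ ¬ (FreeGroup.of y * v).toWord.head? = some (y, true) := by
  have hred : IsReduced v.toWord := isReduced_toWord
  have e : (FreeGroup.of y * v).toWord = FreeGroup.reduce ((y, true) :: v.toWord) := by
    rw [FreeGroup.toWord_mul, FreeGroup.toWord_of]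
    rfl
  rw [e, FreeGroup.reduce.cons, FreeGroup.reduce_toWord]
  rcases h : v.toWord with _ | ⟨⟨z, c⟩, tl⟩
  · simp
  · rw [h] at hred
    cases c
    · by_cases hz : y = z
      · subst hz
        rcases tl with _ | ⟨⟨z', c'⟩, tl'⟩
        · simp
        · have h1 : y = z' → false = c' := by
            have := hred
            rw [FreeGroup.IsReduced, List.isChain_cons_cons] at this
            exact this.1
          simp only [List.head?_cons, true_iff]
          simp only [and_self, Bool.not_false, if_true, List.head?_cons, Option.some.injEq,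
            Prod.mk.injEq, not_and]
          intro h2 h3
          exact absurd (h1 h2.symm) (by rw [h3]; decide)
      · simp [hz, Ne.symm hz]
    · simp

/-- **AX** -/
theorem ax : S_AX := by
  intro Y _ a ha
  have hred : IsReduced a.toWord := isReduced_toWord
  obtain ⟨C, hC⟩ : ∃ C, C = reduceCyclically.conjugator a.toWord := ⟨_, rfl⟩
  obtain ⟨B, hBd⟩ : ∃ B, B = reduceCyclically a.toWord := ⟨_, rfl⟩
  have hw' : C ++ B ++ invRev C = a.toWord := by
    rw [hC, hBd]
    exact reduceCyclically.conj_conjugator_reduceCyclically _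
  have hB : B ≠ [] := by
    intro h
    apply ha
    rw [← FreeGroup.mk_toWord (x := a), ← hw', h, List.append_nil, ← FreeGroup.mul_mk,
      ← FreeGroup.inv_mk, mul_inv_cancel]
  have hcyc : IsCyclicallyReduced B := by
    rw [hBd]
    exact reduceCyclically.isCyclicallyReduced hred
  have hpow : ∀ n, n ≠ 0 → (a ^ n).toWord = C ++ (List.replicate n B).flatten ++ invRev C := by
    intro n hn
    rw [FreeGroup.toWord_pow, reduceCyclically.reduce_flatten_replicate hred, if_neg hn, hC, hBd]
  have key : ∀ (x : FreeGroup Y) (D : List (Y × Bool)), x.toWord = C ++ D ++ invRev C →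
      ((FreeGroup.mk C)⁻¹ * x).toWord = D ++ invRev C := by
    intro x D hx
    have e : (FreeGroup.mk C)⁻¹ * x = FreeGroup.mk (D ++ invRev C) := by
      rw [← FreeGroup.mk_toWord (x := x), hx, List.append_assoc, ← FreeGroup.mul_mk,
        inv_mul_cancel_left]
    have h2 : IsReduced (C ++ (D ++ invRev C)) := by
      rw [← List.append_assoc, ← hx]
      exact isReduced_toWord
    rw [e, toWord_mk, IsReduced.reduce_eq]
    exact (List.isChain_append.1 h2).2.1
  have hneg : ∀ n, n ≠ 0 → (a⁻¹ ^ n).toWord =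
      C ++ invRev (List.replicate n B).flatten ++ invRev C := by
    intro n hn
    rw [inv_pow, FreeGroup.toWord_inv, hpow n hn, invRev_append, invRev_append, invRev_invRev,
      List.append_assoc]
  obtain ⟨l, hl⟩ : ∃ l, B.head? = some l := by
    rw [← Option.isSome_iff_exists]
    exact List.isSome_head?.2 hB
  obtain ⟨l', hl'⟩ : ∃ l', B.getLast? = some l' := by
    exact ⟨_, List.getLast?_eq_some_getLast hB⟩
  have hcc : l'.1 = l.1 → l'.2 = l.2 := hcyc.2 l' hl' l hl
  have hp1 : ∀ n, n ≠ 0 → ((FreeGroup.mk C)⁻¹ * a ^ n).toWord.head? = some l := by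
    intro n hn
    rw [key _ _ (hpow n hn), List.head?_append, List.head?_flatten_replicate hn, hl]
    rfl
  have hp2 : ∀ n, n ≠ 0 → ((FreeGroup.mk C)⁻¹ * a⁻¹ ^ n).toWord.head? = some (l'.1, !l'.2) := by
    intro n hn
    rw [key _ _ (hneg n hn), List.head?_append, invRev, List.head?_reverse, List.getLast?_map,
      List.getLast?_flatten_replicate hn, hl']
    rfl
  have hne : ∀ n, n ≠ 0 → ¬ ((FreeGroup.mk C)⁻¹ * a⁻¹ ^ n).toWord.head? = some l := by
    intro n hn h
    rw [hp2 n hn] at h
    have h1 := Option.some.inj h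
    have h1a := congrArg Prod.fst h1
    have h1b := congrArg Prod.snd h1
    have h2 := hcc h1a
    have h3 : (!l'.2) = l.2 := h1b
    rw [← h2] at h3
    exact absurd h3 (by cases l'.2 <;> decide)
  obtain ⟨y, c⟩ := l
  cases c
  · refine ⟨FreeGroup.mk C * (FreeGroup.of y)⁻¹, y, 1, Or.inr fun n hn => ?_⟩
    have hn0 : n ≠ 0 := by omega
    have e1 : ∀ x : FreeGroup Y, (FreeGroup.mk C * (FreeGroup.of y)⁻¹)⁻¹ * x =
        FreeGroup.of y * ((FreeGroup.mk C)⁻¹ * x) := by
      intro x
      group
    constructor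
    · show ¬ ((FreeGroup.mk C * (FreeGroup.of y)⁻¹)⁻¹ * a ^ n).toWord.head? = some (y, true)
      rw [e1]
      exact (head_neg _ y).1 (hp1 n hn0)
    · show ((FreeGroup.mk C * (FreeGroup.of y)⁻¹)⁻¹ * a⁻¹ ^ n).toWord.head? = some (y, true)
      rw [e1]
      by_contra h
      exact hne n hn0 ((head_neg _ y).2 h)
  · refine ⟨FreeGroup.mk C, y, 1, Or.inl fun n hn => ⟨?_, ?_⟩⟩
    · exact hp1 n (by omega)
    · exact hne n (by omega)

end Q38.LR2
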